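import Pool.Agent.H7.HZ.Stmts

/-!
# Row PWN of the board `hz12`: the pointwise inequality
-/

set_option autoImplicit false

open Finset

namespace Pool.HZ7

open Pool.Agent.H23.KT Pool.Agent.H46.KW Pool.KQ Pool.GT7 Pool.GU7

/-- The right side, with `q = max r (B + 1)`. -/
theorem pwn_rhs (p r B : ℕ) (h : PrZ p r) :
    ∃ q : ℕ, r ≤ q ∧ B + 1 ≤ q ∧ (B + 1 ≤ r → q = r) ∧ (r ≤ B + 1 → q = B + 1) ∧
      ((p : ℝ) + 2) * (1 - ph p r) + ph p r * ((p : ℝ) + 2) * ww p r B =
        ((q : ℝ) - 1) + ((p : ℝ) + 3 - q) * (2 * q - (p + 3) + 1) / (2 * q) := by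
  have hr := h.rb
  have hr' := h.rp
  have hr0 : (0 : ℝ) < r := by
    have : 0 < r := by omega
    exact_mod_cast this
  have hbr : (0 : ℝ) < (p : ℝ) + 3 - r := by
    have : (r : ℝ) ≤ p := by exact_mod_cast hr'
    linarith
  rcases le_total (B + 1) r with hB | hB
  · refine ⟨r, le_rfl, hB, fun _ => rfl, fun h1 => le_antisymm h1 hB, ?_⟩
    have hw : ww p r B = 0 := by
      unfold ww gg
      rw [if_pos hB, sub_self]
    rw [hw]
    unfold ph
    field_simp
    ring
  · refine ⟨B + 1, hB, le_rfl, fun h1 => le_antisymm h1 hB, fun _ => rfl, ?_⟩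
    have hq0 : (0 : ℝ) < ((B + 1 : ℕ) : ℝ) := by positivity
    have hw : ww p r B = ((p : ℝ) + 3) * (((B + 1 : ℕ) : ℝ) - r) /
        (((p : ℝ) + 3 - r) * ((B + 1 : ℕ) : ℝ)) := by
      unfold ww gg
      split_ifs with h1
      · have h2 : B + 1 = r := le_antisymm h1 hB
        rw [h2]
        simp
      · field_simp
        ring
    rw [hw]
    unfold ph
    generalize ((B + 1 : ℕ) : ℝ) = q at hq0 ⊢
    field_simp
    ring

theorem pwn_thm : PWNStmt := by
  intro p r h
  have hr := h.rb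
  have hr' := h.rp
  have hr0 : (0 : ℝ) < r := by
    have : 0 < r := by omega
    exact_mod_cast this
  have hbr : (r : ℝ) ≤ p := by exact_mod_cast hr'
  have hb2 : (p : ℝ) + 3 ≤ 2 * r := by exact_mod_cast hr
  have hp0 : (0 : ℝ) ≤ p := Nat.cast_nonneg p
  refine ⟨?_, ?_, ?_, ?_⟩
  · unfold ph
    exact div_pos (by linarith) (by linarith)
  · unfold ph
    rw [div_le_iff₀ (by linarith)]
    linarith
  · intro B hB
    obtain ⟨q, h1, h2, h3, h4, h5⟩ := pwn_rhs p r B h
    rw [h5]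
    have hq1 : (B : ℝ) + 1 ≤ q := by exact_mod_cast h2
    have hq2 : (r : ℝ) ≤ q := by exact_mod_cast h1
    have hqb : (q : ℝ) ≤ (p : ℝ) + 3 := by
      rcases le_total (B + 1) r with h6 | h6
      · rw [h3 h6]; linarith
      · rw [h4 h6]
        have : B + 1 ≤ p + 3 := by omega
        exact_mod_cast this
    have : 0 ≤ ((p : ℝ) + 3 - q) * (2 * q - (p + 3) + 1) / (2 * q) := by
      apply div_nonneg
      · exact mul_nonneg (by linarith) (by linarith)
      · linarith
    linarith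
  · intro B hB
    obtain ⟨q, h1, h2, h3, h4, h5⟩ := pwn_rhs p r B h
    rw [h5]
    have hq1 : (B : ℝ) + 1 ≤ q := by exact_mod_cast h2
    have hq2 : (r : ℝ) ≤ q := by exact_mod_cast h1
    have hqb : (q : ℝ) + 1 ≤ (p : ℝ) + 3 := by
      rcases le_total (B + 1) r with h6 | h6
      · rw [h3 h6]; linarith
      · rw [h4 h6]
        have : B + 1 + 1 ≤ p + 3 := by omega
        exact_mod_cast this
    have hq0 : (0 : ℝ) < q := by linarith
    have h6 : 1 / (2 * ((p : ℝ) + 3)) ≤
        ((p : ℝ) + 3 - q) * (2 * q - (p + 3) + 1) / (2 * q) := by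
      rw [div_le_div_iff₀ (by linarith) (by linarith)]
      have h7 : 1 ≤ ((p : ℝ) + 3 - q) * (2 * q - (p + 3) + 1) := by
        have e1 : 1 ≤ (p : ℝ) + 3 - q := by linarith
        have e2 : 1 ≤ 2 * (q : ℝ) - (p + 3) + 1 := by linarith
        nlinarith
      nlinarith
    linarith

end Pool.HZ7
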